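import Mathlib

namespace Pool.Agent.Results.MP_5ec752_co.Disproof

/-- Type A regular sequences: the summed block is adjacent to the new entry. -/
inductive RegA : List ℕ → Prop
  | base : RegA [1, 1]
  | left (blk q : List ℕ) : blk ≠ [] → RegA (blk ++ q) → RegA (blk.sum :: (blk ++ q))
  | right (p blk : List ℕ) : blk ≠ [] → RegA (p ++ blk) → RegA ((p ++ blk) ++ [blk.sum])

/-- Type B regular sequences: the summed block is any block of consecutive entries. -/
inductive RegB : List ℕ → Prop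
  | base : RegB [1, 1]
  | left (p blk q : List ℕ) : blk ≠ [] → RegB (p ++ blk ++ q) → RegB (blk.sum :: (p ++ blk ++ q))
  | right (p blk q : List ℕ) : blk ≠ [] → RegB (p ++ blk ++ q) →
      RegB ((p ++ blk ++ q) ++ [blk.sum])

/-- `d` has a permutation of `(k₁, k₂)` as a subsequence. -/
def Has (d : List ℕ) (k₁ k₂ : ℕ) : Prop := [k₁, k₂].Sublist d ∨ [k₂, k₁].Sublist d

noncomputable def a (k₁ k₂ : ℕ) : ℕ := sInf {n | ∃ d, RegA d ∧ d.length = n ∧ Has d k₁ k₂}

noncomputable def b (k₁ k₂ : ℕ) : ℕ := sInf {n | ∃ d, RegB d ∧ d.length = n ∧ Has d k₁ k₂}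

def next (l : List ℕ) : List (List ℕ) :=
  (List.range l.length).flatMap (fun k => [(l.take (k + 1)).sum :: l, l ++ [(l.drop k).sum]])

def gen : ℕ → List (List ℕ)
  | 0 => [[1, 1]]
  | n + 1 => (gen n).flatMap next

lemma mem_gen (d : List ℕ) (h : RegA d) : ∃ n, d.length = n + 2 ∧ d ∈ gen n := by
  induction h with
  | base => exact ⟨0, rfl, by simp [gen]⟩
  | left blk q hb _ ih =>
    obtain ⟨n, h1, h2⟩ := ih
    have hl : 0 < blk.length := List.length_pos_iff.2 hb
    refine ⟨n + 1, by rw [List.length_cons, h1], ?_⟩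
    simp only [gen, next, List.mem_flatMap, List.mem_range]
    refine ⟨_, h2, blk.length - 1, by rw [List.length_append]; omega, ?_⟩
    rw [Nat.sub_add_cancel hl, List.take_left]
    simp
  | right p blk hb _ ih =>
    obtain ⟨n, h1, h2⟩ := ih
    have hl : 0 < blk.length := List.length_pos_iff.2 hb
    refine ⟨n + 1, by rw [List.length_append, h1]; rfl, ?_⟩
    simp only [gen, next, List.mem_flatMap, List.mem_range]
    refine ⟨_, h2, p.length, by rw [List.length_append]; omega, ?_⟩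
    rw [List.drop_left]
    simp

lemma check : (List.range 6).all (fun n => (gen n).all
    (fun l => !(l.contains 9 && l.contains 24))) = true := by decide +kernel

lemma exA : RegA [3, 1, 1, 1, 3, 6, 9, 24] :=
  RegA.right [] [3, 1, 1, 1, 3, 6, 9] (by simp) <|
  RegA.right [3, 1, 1, 1] [3, 6] (by simp) <|
  RegA.right [3] [1, 1, 1, 3] (by simp) <|
  RegA.right [3] [1, 1, 1] (by simp) <|
  RegA.left [1, 1, 1] [] (by simp) <|
  RegA.right [1] [1] (by simp) RegA.base

lemma exB : RegB [7, 1, 1, 2, 4, 9, 24] :=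
  RegB.right [] [7, 1, 1, 2, 4, 9] [] (by simp) <|
  RegB.right [] [7, 1, 1] [2, 4] (by simp) <|
  RegB.left [1] [1, 2, 4] [] (by simp) <|
  RegB.right [] [1, 1, 2] [] (by simp) <|
  RegB.right [] [1, 1] [] (by simp) RegB.base

theorem result : b 9 24 ≤ 7 ∧ a 9 24 = 8 := by
  refine ⟨Nat.sInf_le ⟨_, exB, rfl, Or.inl (by decide)⟩, ?_⟩
  have hm : 8 ∈ {n | ∃ d, RegA d ∧ d.length = n ∧ Has d 9 24} :=
    ⟨_, exA, rfl, Or.inl (by decide)⟩
  have hle : a 9 24 ≤ 8 := Nat.sInf_le hm
  obtain ⟨d, h1, h2, h3⟩ := Nat.sInf_mem ⟨8, hm⟩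
  obtain ⟨n, h4, h5⟩ := mem_gen d h1
  change d.length = a 9 24 at h2
  by_contra hne
  have hn : n < 6 := by omega
  have := List.all_eq_true.1 (List.all_eq_true.1 check n (List.mem_range.2 hn)) d h5
  have h9 : 9 ∈ d := by rcases h3 with h | h <;> exact h.subset (by simp)
  have h24 : 24 ∈ d := by rcases h3 with h | h <;> exact h.subset (by simp)
  simp [h9, h24] at this

end Pool.Agent.Results.MP_5ec752_co.Disproof
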